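import Pool.Agent.W290.LG.Stm2

/-! LG-H: from coefficients to a representation. -/

set_option autoImplicit false

namespace Pool.Agent.W803.LG

open Pool.Agent Pool.Agent.NPC Pool.Agent.H881R2.Mat Pool.Agent.W290.LG

/-- the set of the members of a list -/
def Bl (n : ℕ) (l : List ℕ) : Finset (Fin n) := Finset.univ.filter (fun i => (i : ℕ) ∈ l)

theorem mem_Bl {n : ℕ} {l : List ℕ} {i : Fin n} : i ∈ Bl n l ↔ (i : ℕ) ∈ l := by
  simp [Bl]

theorem sum_Bl {n : ℕ} (l : List ℕ) (hl : l.Nodup) (hn : ∀ i ∈ l, i < n) (g : ℕ → ℚ) :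
    ∑ i ∈ Bl n l, g (i : ℕ) = (l.map g).sum := by
  rw [← List.sum_toFinset g hl]
  refine Finset.sum_bij (fun (i : Fin n) _ => (i : ℕ)) ?_ ?_ ?_ ?_
  · intro i hi
    exact List.mem_toFinset.mpr (mem_Bl.mp hi)
  · intro i _ j _ h
    exact Fin.ext h
  · intro k hk
    have hk' := List.mem_toFinset.mp hk
    exact ⟨⟨k, hn k hk'⟩, mem_Bl.mpr hk', rfl⟩
  · intro i _
    rfl

/-- the vectors -/
noncomputable def vv (n : ℕ) (L : List (List ℕ)) (c : ℕ → ℕ → ℕ → ℚ) (j : Fin n) : Fin n → ℚ :=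
  fun k => if (j : ℕ) ∈ L.flatten then (if (k : ℕ) ∈ L.flatten then c 0 j k else 0) else 0

theorem vv_pos {n : ℕ} {L : List (List ℕ)} {c : ℕ → ℕ → ℕ → ℚ} {j k : Fin n}
    (hj : (j : ℕ) ∈ L.flatten) (hk : (k : ℕ) ∈ L.flatten) : vv n L c j k = c 0 j k := by
  simp only [vv, if_pos hj, if_pos hk]

theorem vv_zero {n : ℕ} {L : List (List ℕ)} {c : ℕ → ℕ → ℕ → ℚ} {j : Fin n}
    (hj : (j : ℕ) ∉ L.flatten) : vv n L c j = 0 := by
  funext k
  simp only [vv, if_neg hj, Pi.zero_apply]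

theorem mem_flat {L : List (List ℕ)} {b : ℕ} {l : List ℕ} (hb : L[b]? = some l) {j : ℕ}
    (hj : j ∈ l) : j ∈ L.flatten :=
  List.mem_flatten.mpr ⟨l, List.mem_of_getElem? hb, hj⟩

theorem expand {n : ℕ} {L : List (List ℕ)} {c : ℕ → ℕ → ℕ → ℚ} (hV : Valid (n, L))
    (hL : L ≠ []) (hc : Coef L c) {b : ℕ} {l : List ℕ} (hb : L[b]? = some l) {j : Fin n}
    (hj : (j : ℕ) ∈ L.flatten) :
    vv n L c j = ∑ i ∈ Bl n l, c b j i • vv n L c i := by
  obtain ⟨l0, L', rfl⟩ := List.exists_cons_of_ne_nil hL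
  have h0 : (l0 :: L')[0]? = some l0 := rfl
  have hl := hV l (List.mem_of_getElem? hb)
  have hnd : l.Nodup := hl.1.imp (fun h => ne_of_lt h)
  funext k
  rw [Finset.sum_apply]
  by_cases hk : (k : ℕ) ∈ (l0 :: L').flatten
  · rw [vv_pos hj hk, ← hc.tr b l hb 0 l0 h0 j hj k hk,
      ← sum_Bl l hnd hl.2 (fun i => c b j i * c 0 i k)]
    refine Finset.sum_congr rfl fun i hi => ?_
    rw [Pi.smul_apply, smul_eq_mul, vv_pos (mem_flat hb (mem_Bl.mp hi)) hk]
  · have h1 : ∀ i : Fin n, vv n (l0 :: L') c i k = 0 := by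
      intro i
      simp only [vv, if_neg hk, ite_self]
    rw [h1]
    symm
    refine Finset.sum_eq_zero fun i _ => ?_
    rw [Pi.smul_apply, h1, smul_zero]

theorem indep {n : ℕ} {L : List (List ℕ)} {c : ℕ → ℕ → ℕ → ℚ} (hV : Valid (n, L))
    (hL : L ≠ []) (hc : Coef L c) {b : ℕ} {l : List ℕ} (hb : L[b]? = some l) :
    LinearIndependent ℚ (fun i : Bl n l => vv n L c i) := by
  obtain ⟨l0, L', rfl⟩ := List.exists_cons_of_ne_nil hL
  have h0 : (l0 :: L')[0]? = some l0 := rfl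
  have hl := hV l (List.mem_of_getElem? hb)
  have hl0 := hV l0 (List.mem_of_getElem? h0)
  have hnd : l.Nodup := hl.1.imp (fun h => ne_of_lt h)
  have hnd0 : l0.Nodup := hl0.1.imp (fun h => ne_of_lt h)
  have key : ∀ f : Fin n → ℚ, ∑ i ∈ Bl n l, f i • vv n (l0 :: L') c i = 0 →
      ∀ i ∈ Bl n l, f i = 0 := by
    intro f hf i' hi'
    have hm : ∀ m : Fin n, (m : ℕ) ∈ (l0 :: L').flatten →
        ∑ i ∈ Bl n l, f i * c 0 i m = 0 := by
      intro m hmF
      have h1 := congrFun hf m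
      rw [Finset.sum_apply, Pi.zero_apply] at h1
      rw [← h1]
      refine Finset.sum_congr rfl fun i hi => ?_
      rw [Pi.smul_apply, smul_eq_mul, vv_pos (mem_flat hb (mem_Bl.mp hi)) hmF]
    have hi'F := mem_flat hb (mem_Bl.mp hi')
    have h2 : ∑ m ∈ Bl n l0, c b m i' * ∑ i ∈ Bl n l, f i * c 0 i m = 0 := by
      refine Finset.sum_eq_zero fun m hmm => ?_
      rw [hm m (mem_flat h0 (mem_Bl.mp hmm)), mul_zero]
    have h3 : ∑ i ∈ Bl n l, f i * ∑ m ∈ Bl n l0, c 0 i m * c b m i' = 0 := by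
      rw [← h2]
      simp_rw [Finset.mul_sum]
      rw [Finset.sum_comm]
      refine Finset.sum_congr rfl fun m _ => Finset.sum_congr rfl fun i _ => ?_
      ring
    have h4 : ∀ i ∈ Bl n l, ∑ m ∈ Bl n l0, c 0 i m * c b m i' = if i = i' then 1 else 0 := by
      intro i hi
      have hiF := mem_flat hb (mem_Bl.mp hi)
      rw [sum_Bl l0 hnd0 hl0.2 (fun m => c 0 i m * c b m i'),
        hc.tr 0 l0 h0 b l hb i hiF i' hi'F, hc.one b l hb i (mem_Bl.mp hi) i' (mem_Bl.mp hi')]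
      by_cases h : i = i'
      · rw [if_pos h, if_pos (congrArg Fin.val h)]
      · rw [if_neg h, if_neg (fun h5 => h (Fin.ext h5))]
    have h5 : ∑ i ∈ Bl n l, f i * ∑ m ∈ Bl n l0, c 0 i m * c b m i'
        = ∑ i ∈ Bl n l, f i * (if i = i' then 1 else 0) :=
      Finset.sum_congr rfl fun i hi => by rw [h4 i hi]
    rw [h5] at h3
    rw [Finset.sum_eq_single i'] at h3
    · rw [if_pos rfl, mul_one] at h3
      exact h3
    · intro i _ hne
      rw [if_neg hne, mul_zero]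
    · intro h
      exact absurd hi' h
  exact linearIndepOn_finset_iff.mpr key

theorem spans {n : ℕ} {L : List (List ℕ)} {c : ℕ → ℕ → ℕ → ℚ} (hV : Valid (n, L))
    (hL : L ≠ []) (hc : Coef L c) {b : ℕ} {l : List ℕ} (hb : L[b]? = some l) :
    Submodule.span ℚ (vv n L c '' (Bl n l : Set (Fin n)))
      = Submodule.span ℚ (Set.range (vv n L c)) := by
  refine le_antisymm (Submodule.span_mono (Set.image_subset_range _ _)) ?_
  rw [Submodule.span_le]
  rintro _ ⟨j, rfl⟩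
  show vv n L c j ∈ Submodule.span ℚ (vv n L c '' (Bl n l : Set (Fin n)))
  by_cases hj : (j : ℕ) ∈ L.flatten
  · rw [expand hV hL hc hb hj]
    refine Submodule.sum_mem _ fun i hi => Submodule.smul_mem _ _ (Submodule.subset_span ?_)
    exact ⟨i, hi, rfl⟩
  · rw [vv_zero hj]
    exact Submodule.zero_mem _

theorem notMem {n m : ℕ} {v : Fin n → (Fin m → ℚ)} {B : Finset (Fin n)}
    (h : LinearIndependent ℚ (fun i : B => v i)) {i : Fin n} (hi : i ∈ B) :
    v i ∉ Submodule.span ℚ (v '' {x | x ∈ B ∧ x ≠ i}) := by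
  have h1 := (linearIndependent_iff_notMem_span.mp h) ⟨i, hi⟩
  intro h2
  apply h1
  refine Submodule.span_mono ?_ h2
  rintro _ ⟨x, ⟨hx, hne⟩, rfl⟩
  refine ⟨⟨x, hx⟩, ⟨trivial, ?_⟩, rfl⟩
  intro h3
  exact hne (congrArg Subtype.val h3)

theorem exch_spec {L : List (List ℕ)} {l : List ℕ} {j k : ℕ} (h : exch L l j k = true) :
    ∃ l' ∈ L, j ∈ l' ∧ (∀ x ∈ l', x = j ∨ (x ∈ l ∧ x ≠ k)) ∧ ∀ x ∈ l, x = k ∨ x ∈ l' := by
  unfold exch at h
  rw [List.any_eq_true] at h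
  obtain ⟨l', hl', h⟩ := h
  simp only [Bool.and_eq_true, decide_eq_true_eq, List.all_eq_true, Bool.or_eq_true,
    Bool.not_eq_true', decide_eq_false_iff_not] at h
  exact ⟨l', hl', h.1, h.2.1, h.2.2⟩

theorem conv {n : ℕ} {L : List (List ℕ)} {c : ℕ → ℕ → ℕ → ℚ} (hV : Valid (n, L))
    (hL : L ≠ []) (hc : Coef L c) (B : Finset (Fin n))
    (hB : LinearIndependent ℚ (fun i : B => vv n L c i))
    (hS : Submodule.span ℚ (vv n L c '' (B : Set (Fin n)))
      = Submodule.span ℚ (Set.range (vv n L c))) :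
    ∀ (d : ℕ) (b : ℕ) (l : List ℕ), L[b]? = some l → (B \ Bl n l).card = d →
      ∃ l' ∈ L, B = Bl n l' := by
  intro d
  induction d using Nat.strong_induction_on with
  | _ d ih =>
  intro b l hb hd
  by_cases hsub : B ⊆ Bl n l
  · refine ⟨l, List.mem_of_getElem? hb, Finset.Subset.antisymm hsub ?_⟩
    intro i hi
    by_contra hiB
    refine notMem (indep hV hL hc hb) hi ?_
    have h1 : vv n L c i ∈ Submodule.span ℚ (vv n L c '' (B : Set (Fin n))) := by
      rw [hS]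
      exact Submodule.subset_span ⟨i, rfl⟩
    refine Submodule.span_mono ?_ h1
    rintro _ ⟨x, hx, rfl⟩
    refine ⟨x, ⟨hsub hx, ?_⟩, rfl⟩
    rintro rfl
    exact hiB hx
  · obtain ⟨j, hjB, hjl⟩ := Finset.not_subset.mp hsub
    have hjF : (j : ℕ) ∈ L.flatten := by
      by_contra hjF
      refine notMem hB hjB ?_
      rw [vv_zero hjF]
      exact Submodule.zero_mem _
    have hex : ∃ k : Fin n, k ∈ Bl n l ∧ k ∉ B ∧ c b j k ≠ 0 := by
      by_contra hno
      push_neg at hno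
      refine notMem hB hjB ?_
      rw [expand hV hL hc hb hjF]
      refine Submodule.sum_mem _ fun i hi => ?_
      by_cases hiB : i ∈ B
      · refine Submodule.smul_mem _ _ (Submodule.subset_span ⟨i, ⟨hiB, ?_⟩, rfl⟩)
        rintro rfl
        exact hjl hi
      · rw [hno i hi hiB, zero_smul]
        exact Submodule.zero_mem _
    obtain ⟨k, hkl, hkB, hck⟩ := hex
    have hjl' : (j : ℕ) ∉ l := fun h => hjl (mem_Bl.mpr h)
    have h1 := (hc.ex b l hb j hjF hjl' k (mem_Bl.mp hkl)).mp hck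
    obtain ⟨l', hl', hj', h2, h3⟩ := exch_spec h1
    obtain ⟨b', hb'⟩ := List.getElem?_of_mem hl'
    refine ih (B \ Bl n l').card ?_ b' l' hb' rfl
    rw [← hd]
    refine Finset.card_lt_card ?_
    rw [Finset.ssubset_iff_of_subset]
    · refine ⟨j, Finset.mem_sdiff.mpr ⟨hjB, hjl⟩, ?_⟩
      intro h4
      exact (Finset.mem_sdiff.mp h4).2 (mem_Bl.mpr hj')
    · intro x hx
      rw [Finset.mem_sdiff] at hx ⊢
      refine ⟨hx.1, ?_⟩
      intro hxl
      rcases h3 x (mem_Bl.mp hxl) with h4 | h4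
      · have : x = k := Fin.ext h4
        subst this
        exact hkB hx.1
      · exact hx.2 (mem_Bl.mpr h4)

theorem t_H : Pool.Agent.W290.LG.S_H := by
  rintro ⟨n, L⟩ hV hL ⟨c, hc⟩
  refine ⟨n, vv n L c, fun B => ⟨?_, ?_⟩⟩
  · rintro ⟨l, hl, hB⟩
    have hBe : B = Bl n l := by
      ext i
      rw [mem_Bl]
      exact hB i
    obtain ⟨b, hb⟩ := List.getElem?_of_mem hl
    rw [hBe]
    exact ⟨indep hV hL hc hb, spans hV hL hc hb⟩
  · rintro ⟨hB, hS⟩
    obtain ⟨l0, L', hL'⟩ := List.exists_cons_of_ne_nil hL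
    have h0 : L[0]? = some l0 := by
      show (L : List (List ℕ))[0]? = some l0
      rw [show L = l0 :: L' from hL']
      rfl
    obtain ⟨l', hl', he⟩ := conv hV hL hc B hB hS _ 0 l0 h0 rfl
    refine ⟨l', hl', fun i => ?_⟩
    rw [he, mem_Bl]

end Pool.Agent.W803.LG
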